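import Pool.Agent.Sym20c8.Main

/-!
# Every nontrivial Seifert matrix has algebraic symbionts

For the algebraic unknotting number `u_a` (Murakami, Fogel, Saeki, Borodzik - Friedl), computed
from the S-equivalence class of a Seifert matrix, every Seifert matrix `V` that is not
S-equivalent to the empty one has infinitely many symbionts `W`, with `u_a(W) = 1` and
`u_a(V ⊕ W) < u_a(V) + u_a(W)`.
-/

namespace Pool.Agent.Results.MP_20c8cd_gt.AlgebraicSymbionts

open Pool.Agent.Sym20c8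

theorem result (V : SqM) (hV : IsSeifert V) (h0 : ¬ SEq V emptyM) :
    ∃ (n : ℕ) (W : ℕ → SqM), HasUa V n ∧
      (∀ k, IsSeifert (W k) ∧ HasUa (W k) 1 ∧ ∃ m, HasUa (sumM V (W k)) m ∧ m < n + 1) ∧
      ∀ j k, SEq (W j) (W k) → j = k := by
  classical
  have hfin : ∃ n, Unknots n V := finU_of_seifert _ V rfl hV
  have hleast : HasUa V (Nat.find hfin) :=
    ⟨Nat.find_spec hfin, fun m hm => Nat.find_min' hfin hm⟩
  have hne : Nat.find hfin ≠ 0 := by
    intro h
    have h1 := Nat.find_spec hfin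
    rw [h] at h1
    exact h0 h1
  obtain ⟨n, hn⟩ := Nat.exists_eq_succ_of_ne_zero hne
  have hn' : Unknots (n + 1) V := by
    have h1 := Nat.find_spec hfin
    rw [hn] at h1
    exact h1
  obtain ⟨W, hW, hWW⟩ := step n V hn'
  refine ⟨Nat.find hfin, W, hleast, fun k => ?_, hWW⟩
  obtain ⟨h1, h2, h3, h4⟩ := hW k
  refine ⟨h1, ⟨h2, ?_⟩, ?_⟩
  · intro m hm
    rcases Nat.eq_zero_or_pos m with rfl | hm0
    · exact absurd hm h3
    · exact hm0
  · have hfin2 : ∃ m, Unknots m (sumM V (W k)) := ⟨n + 1, h4⟩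
    refine ⟨Nat.find hfin2, ⟨Nat.find_spec hfin2, fun m hm => Nat.find_min' hfin2 hm⟩, ?_⟩
    have h5 : Nat.find hfin2 ≤ n + 1 := Nat.find_min' hfin2 h4
    omega

end Pool.Agent.Results.MP_20c8cd_gt.AlgebraicSymbionts
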